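import Pool.Agent.KS6_69.Nesto.Final

/-!
# Toric g-polynomials of chordal nestohedra and cyclohedra are real-rooted

Full answer (yes) to Q2. For a building set `B` on `Fin (n+1)` the nestohedron is the Minkowski sum of
the simplices `conv {e_i : i ∈ I}`, `I ∈ B`; its faces are its nonempty exposed faces, the dimension of
a face is the rank of its direction space, and `h` and `γ` are defined from the face numbers.

Proof.
* The faces of `P_B` are classified by the maps sending `i` to the component of `i` in the sublevel
  set `{c ≤ c_i}` of a functional `c`; this gives the recursion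
  `∑_{J ⊆ S} (t-1)^{|S|-|J|} F(J) = t^{c(S)} F(S)` for the h-polynomials `F(J)` of the restrictions.
* From it, `F(S) = F(S∖a) + ∑_{I ∋ a} (t + ... + t^{c(I∖a)}) F_{B/I}(S∖I) F(I∖a)`, which gives `γ ≥ 0`
  for chordal building sets and for the arcs of a cycle.
* The polynomials `g_{n,j}`, `j ≤ n/2`, have a common interleaver (the Legendre polynomial `P_n(t)`,
  `t^2 = 1/(1-x)`), so that every nonnegative combination of them is real-rooted.
-/

namespace Pool.Agent.Results.MP_141d57_co.ToricQ2

open Polynomial Pool.Agent.KS6_69.Toric Pool.Agent.KS6_69.Nesto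

/-- For every `n ≥ 1`: the toric `g`-polynomial of every `n`-dimensional chordal nestohedron and of
the `n`-dimensional cyclohedron is real-rooted, and so is every nonnegative combination of
`g_{n,0}, …, g_{n,⌊n/2⌋}` with coefficients not all zero. -/
theorem result (n : ℕ) (_hn : 1 ≤ n) :
    (∀ B : Finset (Finset (Fin (n + 1))), IsBuildingSet B → Finset.univ ∈ B → IsChordal B →
      ToricGRealRooted n (nestohedron B)) ∧
    ToricGRealRooted n (nestohedron (cyclicBuildingSet n)) ∧
    ∀ γ : ℕ → ℝ, (∀ j ≤ n / 2, 0 ≤ γ j) → (∃ j ≤ n / 2, γ j ≠ 0) →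
      RealRooted (∑ j ∈ Finset.range (n / 2 + 1), C (γ j) * g n j) :=
  ⟨fun _ hB hconn hch => chordal_result hB hconn hch, cyclo_result n,
    fun γ hγ hne => combo_realRooted n γ hγ hne⟩

end Pool.Agent.Results.MP_141d57_co.ToricQ2
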